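import Mathlib
import Pool.Agent.H.MP_9f86c8_nt.A
set_option autoImplicit false

namespace Pool.Agent.H.MP_f8fa1d_co
open Finset Filter Topology Pool.Agent.H.MP_9f86c8_nt

noncomputable def w (S : Finset ℕ) : ℝ := ∑ n ∈ S, (1 : ℝ) / n

theorem w_mono {S S' : Finset ℕ} (h : S ⊆ S') : w S ≤ w S' :=
  sum_le_sum_of_subset_of_nonneg h fun _ _ _ => by positivity

theorem w_union_le (S S' : Finset ℕ) : w (S ∪ S') ≤ w S + w S' := by
  unfold w
  rw [← sum_union_inter]
  have : 0 ≤ ∑ n ∈ S ∩ S', (1 : ℝ) / n := sum_nonneg fun _ _ => by positivity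
  linarith

theorem w_biUnion_le (s : Finset ℕ) (f : ℕ → Finset ℕ) : w (s.biUnion f) ≤ ∑ i ∈ s, w (f i) := by
  induction s using Finset.induction_on with
  | empty => simp [w]
  | insert a s ha ih =>
    rw [biUnion_insert, sum_insert ha]
    exact (w_union_le _ _).trans (by linarith)

theorem w_image_le (s : Finset ℕ) (f : ℕ → ℕ) : w (s.image f) ≤ ∑ i ∈ s, (1 : ℝ) / f i :=
  sum_image_le_of_nonneg fun _ _ => by positivity

open Classical in
noncomputable def cnt (A : Set ℕ) (N : ℕ) : ℕ := ((Icc 1 N).filter fun n => n ∈ A).card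

open Classical in
theorem cnt_succ (A : Set ℕ) (N : ℕ) : cnt A (N + 1) = cnt A N + if N + 1 ∈ A then 1 else 0 := by
  unfold cnt
  rw [← insert_Icc_right_eq_Icc_add_one (by omega), filter_insert]
  split_ifs with h
  · rw [card_insert_of_notMem (by simp)]
  · rfl

open Classical in
theorem cnt_Ioc (A : Set ℕ) {K N : ℕ} (h : K ≤ N) :
    cnt A N = cnt A K + ((Ioc K N).filter fun n => n ∈ A).card := by
  unfold cnt
  rw [← card_union_of_disjoint, ← filter_union]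
  · congr 2
    ext n
    simp only [mem_Icc, mem_union, mem_Ioc]
    omega
  · refine disjoint_filter_filter (disjoint_left.2 fun n h1 h2 => ?_)
    have := mem_Icc.1 h1
    have := mem_Ioc.1 h2
    omega

theorem thin (A : Set ℕ) (θ : ℝ) (hθ : 0 ≤ θ)
    (h : ∀ ε : ℝ, 0 < ε → ∀ᶠ N : ℕ in atTop, ∀ K : ℕ, K ≤ N →
      θ * (N - K) - ε * N ≤ (cnt A N : ℝ) - cnt A K) :
    ∃ B ⊆ A, Tendsto (fun N : ℕ => (cnt B N : ℝ) / N) atTop (𝓝 θ) := by
  classical
  obtain ⟨b, hb0, hb⟩ : ∃ b : ℕ → ℕ, b 0 = 0 ∧ ∀ n : ℕ,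
      b (n + 1) = if n + 1 ∈ A ∧ ((b n : ℕ) : ℝ) < θ * (n + 1) then b n + 1 else b n :=
    ⟨fun n => Nat.rec 0
      (fun n (x : ℕ) => if n + 1 ∈ A ∧ (x : ℝ) < θ * (n + 1) then x + 1 else x) n, rfl, fun n => rfl⟩
  refine ⟨{m | m ∈ A ∧ (b (m - 1) : ℝ) < θ * m}, fun m hm => hm.1, ?_⟩
  set B := {m | m ∈ A ∧ (b (m - 1) : ℝ) < θ * m} with hB
  have e1 : ∀ N, cnt B N = b N := by
    intro N
    induction N with
    | zero => simp [cnt, hb0]
    | succ N ih =>
      rw [cnt_succ, hb, ih]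
      have : N + 1 ∈ B ↔ N + 1 ∈ A ∧ (b N : ℝ) < θ * (N + 1) := by
        simp [hB]
      by_cases hc : N + 1 ∈ B
      · rw [if_pos hc, if_pos (this.1 hc)]
      · rw [if_neg hc, if_neg (fun h => hc (this.2 h))]
        rfl
  have e2 : ∀ N : ℕ, (b N : ℝ) ≤ θ * N + 1 := by
    intro N
    induction N with
    | zero => simp [hb0]
    | succ N ih =>
      rw [hb]
      split_ifs with hc
      · push_cast
        linarith [hc.2]
      · push_cast
        linarith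
  have e3 : ∀ N : ℕ, ∃ K ≤ N, θ * K ≤ b K ∧ (b N : ℝ) - b K = (cnt A N : ℝ) - cnt A K := by
    intro N
    induction N with
    | zero => exact ⟨0, le_rfl, by simp, by simp⟩
    | succ N ih =>
      obtain ⟨K, k1, k2, k3⟩ := ih
      by_cases hA : N + 1 ∈ A
      · by_cases hc : (b N : ℝ) < θ * (N + 1)
        · refine ⟨K, by omega, k2, ?_⟩
          rw [hb, if_pos ⟨hA, hc⟩, cnt_succ, if_pos hA]
          push_cast
          linarith
        · refine ⟨N + 1, le_rfl, ?_, by simp⟩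
          rw [hb, if_neg (fun h => hc h.2)]
          push_cast
          linarith
      · refine ⟨K, by omega, k2, ?_⟩
        rw [hb, if_neg (fun h => hA h.1), cnt_succ, if_neg hA]
        simpa using k3
  have l2 : Tendsto (fun N : ℕ => θ + (1 : ℝ) / N) atTop (𝓝 θ) := by
    simpa using tendsto_one_div_atTop_nhds_zero_nat.const_add θ
  refine tendsto_order.2 ⟨fun a ha => ?_, fun a ha => ?_⟩
  · filter_upwards [eventually_gt_atTop 0, h ((θ - a) / 2) (by linarith)] with N hN hK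
    have hN' : (0 : ℝ) < N := by exact_mod_cast hN
    obtain ⟨K, k1, k2, k3⟩ := e3 N
    have := hK K k1
    rw [e1, lt_div_iff₀ hN']
    nlinarith
  · filter_upwards [eventually_gt_atTop 0, l2.eventually (gt_mem_nhds ha)] with N hN hK
    have hN' : (0 : ℝ) < N := by exact_mod_cast hN
    refine lt_of_le_of_lt ?_ hK
    rw [e1, div_le_iff₀ hN', add_mul, div_mul_cancel₀ _ hN'.ne']
    exact e2 N

theorem abel (g : ℕ → ℝ) (C : ℝ) (hC : 0 ≤ C) (h : ∀ N, -C ≤ ∑ n ∈ Icc 1 N, g n) (X : ℕ) :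
    -C ≤ ∑ n ∈ Icc 1 X, g n / n := by
  have key : ∀ X : ℕ, -C ≤ ∑ n ∈ Icc 1 (X + 1), g n / n -
      (∑ n ∈ Icc 1 (X + 1), g n + C) / (X + 1 : ℕ) := by
    intro X
    induction X with
    | zero => simp
    | succ X ih =>
      rw [sum_Icc_succ_top (by omega), sum_Icc_succ_top (b := X + 1) (f := g) (by omega)]
      have h1 := h (X + 1)
      generalize ∑ n ∈ Icc 1 (X + 1), g n = G at *
      have h2 : (G + C) / ((X + 1 + 1 : ℕ) : ℝ) ≤ (G + C) / ((X + 1 : ℕ) : ℝ) := by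
        apply div_le_div_of_nonneg_left (by linarith) (by positivity)
        push_cast
        linarith
      have h3 : (G + g (X + 1 + 1) + C) / ((X + 1 + 1 : ℕ) : ℝ) =
          (G + C) / ((X + 1 + 1 : ℕ) : ℝ) + g (X + 1 + 1) / ((X + 1 + 1 : ℕ) : ℝ) := by ring
      linarith
  rcases X with _ | X
  · simpa using hC
  · have h1 := key X
    have h2 : 0 ≤ (∑ n ∈ Icc 1 (X + 1), g n + C) / ((X + 1 : ℕ) : ℝ) :=
      div_nonneg (by linarith [h (X + 1)]) (by positivity)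
    linarith

noncomputable def Hm (X : ℕ) : ℝ := ∑ n ∈ Icc 1 X, (1 : ℝ) / n

theorem Hm_top : Tendsto Hm atTop atTop := by
  refine Real.tendsto_sum_range_one_div_nat_succ_atTop.congr fun X => ?_
  induction X with
  | zero => simp [Hm]
  | succ X ih =>
    rw [sum_range_succ, ih, Hm, Hm, sum_Icc_succ_top (by omega)]
    push_cast
    rfl

open Classical in
theorem log_ge (A : Set ℕ) (θ C : ℝ) (hC : 0 ≤ C) (h : ∀ N : ℕ, θ * N - C ≤ cnt A N) (X : ℕ) :
    θ * Hm X - C ≤ w ((Icc 1 X).filter fun n => n ∈ A) := by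
  have := abel (fun n => (if n ∈ A then 1 else 0) - θ) C hC (fun N => by
    have := h N
    rw [sum_sub_distrib, sum_boole]
    simp only [sum_const, Nat.card_Icc, Nat.add_sub_cancel, nsmul_eq_mul]
    unfold cnt at this
    linarith) X
  simp only [sub_div, sum_sub_distrib] at this
  rw [w, sum_filter, Hm, mul_sum]
  have e1 : ∑ n ∈ Icc 1 X, (if n ∈ A then (1 : ℝ) else 0) / n =
      ∑ n ∈ Icc 1 X, if n ∈ A then (1 : ℝ) / n else 0 :=
    sum_congr rfl fun n _ => by split_ifs <;> simp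
  have e2 : ∑ n ∈ Icc 1 X, θ / n = ∑ n ∈ Icc 1 X, θ * (1 / n) :=
    sum_congr rfl fun n _ => by ring
  linarith

open Classical in
theorem log_le (A : Set ℕ) (θ C : ℝ) (hC : 0 ≤ C) (h : ∀ N : ℕ, (cnt A N : ℝ) ≤ θ * N + C) (X : ℕ) :
    w ((Icc 1 X).filter fun n => n ∈ A) ≤ θ * Hm X + C := by
  have := abel (fun n => θ - (if n ∈ A then 1 else 0)) C hC (fun N => by
    have := h N
    rw [sum_sub_distrib, sum_boole]
    simp only [sum_const, Nat.card_Icc, Nat.add_sub_cancel, nsmul_eq_mul]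
    unfold cnt at this
    linarith) X
  simp only [sub_div, sum_sub_distrib] at this
  rw [w, sum_filter, Hm, mul_sum]
  have e1 : ∑ n ∈ Icc 1 X, (if n ∈ A then (1 : ℝ) else 0) / n =
      ∑ n ∈ Icc 1 X, if n ∈ A then (1 : ℝ) / n else 0 :=
    sum_congr rfl fun n _ => by split_ifs <;> simp
  have e2 : ∑ n ∈ Icc 1 X, θ / n = ∑ n ∈ Icc 1 X, θ * (1 / n) :=
    sum_congr rfl fun n _ => by ring
  linarith

def Cop (M : ℕ) : Set ℕ := {m | M.Coprime m}

theorem cop_bounds {M : ℕ} (hM : 0 < M) (N : ℕ) :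
    (M.totient : ℝ) / M * N - M ≤ cnt (Cop M) N ∧ (cnt (Cop M) N : ℝ) ≤ M.totient / M * N + M := by
  classical
  have hM' : (0 : ℝ) < M := by exact_mod_cast hM
  have e : ∀ j, cnt (Cop M) (M * j) = j * M.totient := by
    intro j
    rw [← cop_count M 1 j, cnt]
    congr 1
    ext n
    simp only [mem_filter, mem_Icc, mem_Ico, Cop, Set.mem_ofPred_eq]
    constructor
    · rintro ⟨h1, h2⟩
      exact ⟨by omega, h2⟩
    · rintro ⟨h1, h2⟩
      exact ⟨by omega, h2⟩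
  have h1 : M * (N / M) ≤ N := Nat.mul_div_le N M
  have h2 : N < M * (N / M + 1) := Nat.lt_mul_div_succ N hM
  have h3 := cnt_Ioc (Cop M) h1
  have h4 := cnt_Ioc (Cop M) h2.le
  rw [e] at h3 h4
  have h5 : ((N / M : ℕ) : ℝ) * M.totient ≤ cnt (Cop M) N := by exact_mod_cast (by omega)
  have h6 : (cnt (Cop M) N : ℝ) ≤ ((N / M : ℕ) + 1) * M.totient := by exact_mod_cast (by omega)
  have h7 : (M : ℝ) * (N / M : ℕ) ≤ N := by exact_mod_cast h1
  have h8 : (N : ℝ) ≤ M * ((N / M : ℕ) + 1) := by exact_mod_cast h2.le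
  have h9 : (M.totient : ℝ) ≤ M := by exact_mod_cast M.totient_le
  have h10 : (0 : ℝ) ≤ M.totient := by positivity
  generalize ((N / M : ℕ) : ℝ) = q at *
  have h11 : (M.totient : ℝ) / M * N ≤ M.totient * (q + 1) := by
    rw [div_mul_eq_mul_div, div_le_iff₀ hM']
    nlinarith
  have h12 : M.totient * q ≤ (M.totient : ℝ) / M * N := by
    rw [div_mul_eq_mul_div, le_div_iff₀ hM']
    nlinarith
  constructor <;> nlinarith

theorem decomp (M : ℕ) (n : ℕ) : 0 < n → ∃ m s k, n = m * s ∧ M.Coprime m ∧ s ∣ M ^ k := by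
  induction n using Nat.strong_induction_on with
  | _ n ih =>
    intro hn
    by_cases h : M.Coprime n
    · exact ⟨n, 1, 0, by simp, h, by simp⟩
    · obtain ⟨n', hn'⟩ := Nat.gcd_dvd_right M n
      have hg : 0 < M.gcd n := Nat.gcd_pos_of_pos_right _ hn
      have hg1 : M.gcd n ≠ 1 := h
      have h0 : 0 < n' := Nat.pos_of_ne_zero (by rintro rfl; omega)
      obtain ⟨m, s, k, e1, e2, e3⟩ := ih n' (by nlinarith [show 2 ≤ M.gcd n by omega]) h0
      refine ⟨m, s * M.gcd n, k + 1, by rw [← mul_assoc, ← e1, mul_comm]; exact hn', e2, ?_⟩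
      rw [pow_succ]
      exact Nat.mul_dvd_mul e3 (Nat.gcd_dvd_left _ _)

theorem upper {M : ℕ} (hM : 0 < M) {A : Set ℕ} (hA : Free A) {d W : ℝ}
    (hd : Tendsto (fun N : ℕ => (cnt A N : ℝ) / N) atTop (𝓝 d))
    (hW : ∀ S : Finset ℕ, (∀ s ∈ S, 0 < s ∧ ∃ k, s ∣ M ^ k) → Free S → w S ≤ W) :
    d ≤ M.totient / M * W := by
  classical
  have hW0 : 0 ≤ W := by simpa [w] using hW ∅ (by simp) (by simp [Free])
  by_contra hlt
  obtain ⟨θ, h1, h2⟩ := exists_between (not_le.1 hlt)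
  obtain ⟨N1, hN1⟩ := eventually_atTop.1 (hd.eventually (lt_mem_nhds h2))
  have hθ : 0 ≤ θ := le_trans (by positivity) h1.le
  have h3 : ∀ N : ℕ, θ * N - θ * N1 ≤ cnt A N := by
    intro N
    rcases le_or_gt N N1 with h | h
    · have : (N : ℝ) ≤ N1 := by exact_mod_cast h
      have : (0 : ℝ) ≤ cnt A N := by positivity
      nlinarith
    · have h4 := hN1 N h.le
      have hN : (0 : ℝ) < N := by exact_mod_cast (by omega : 0 < N)
      rw [lt_div_iff₀ hN] at h4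
      have : 0 ≤ θ * N1 := by positivity
      linarith
  have h4 : ∀ X, w ((Icc 1 X).filter fun n => n ∈ A) ≤
      W * w ((Icc 1 X).filter fun n => n ∈ Cop M) := by
    intro X
    have hs : ((Icc 1 X).filter fun n => n ∈ A) ⊆ ((Icc 1 X).filter fun n => n ∈ Cop M).biUnion
        fun m => ((Icc 1 X).filter fun s => m * s ∈ A ∧ ∃ k, s ∣ M ^ k).image fun s => m * s := by
      intro n hn
      obtain ⟨hn1, hn2⟩ := mem_filter.1 hn
      have hn3 := mem_Icc.1 hn1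
      obtain ⟨m, s, k, rfl, e2, e3⟩ := decomp M n hn3.1
      have hm : 0 < m := Nat.pos_of_mul_pos_right hn3.1
      have hs : 0 < s := Nat.pos_of_mul_pos_left hn3.1
      exact mem_biUnion.2 ⟨m, mem_filter.2 ⟨mem_Icc.2 ⟨hm, by nlinarith⟩, e2⟩, mem_image.2
        ⟨s, mem_filter.2 ⟨mem_Icc.2 ⟨hs, by nlinarith⟩, hn2, k, e3⟩, rfl⟩⟩
    refine (w_mono hs).trans ((w_biUnion_le _ _).trans ?_)
    rw [w, mul_sum]
    refine sum_le_sum fun m hm => (w_image_le _ _).trans ?_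
    have hm0 : 0 < m := (mem_Icc.1 (mem_filter.1 hm).1).1
    have h5 := hW ((Icc 1 X).filter fun s => m * s ∈ A ∧ ∃ k, s ∣ M ^ k)
      (fun s hs => ⟨(mem_Icc.1 (mem_filter.1 hs).1).1, (mem_filter.1 hs).2.2⟩) (by
        intro a ha b hb c hc hab hbc h
        refine hA _ (mem_filter.1 (mem_coe.1 ha)).2.1 _ (mem_filter.1 (mem_coe.1 hb)).2.1 _
          (mem_filter.1 (mem_coe.1 hc)).2.1 (by nlinarith) (by nlinarith) ?_
        rw [mul_pow, h]
        ring)
    have h6 : ∀ S : Finset ℕ, ∑ i ∈ S, (1 : ℝ) / ((m * i : ℕ) : ℝ) = w S * (1 / m) := by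
      intro S
      rw [w, sum_mul]
      refine sum_congr rfl fun i _ => ?_
      push_cast
      rw [one_div_mul_one_div, mul_comm]
    rw [h6]
    exact mul_le_mul_of_nonneg_right h5 (by positivity)
  obtain ⟨X, hX⟩ := (Hm_top.eventually_gt_atTop
    ((θ * N1 + W * M) / (θ - M.totient / M * W))).exists
  rw [div_lt_iff₀ (by linarith)] at hX
  have h5 := log_ge A θ (θ * N1) (by positivity) h3 X
  have h6 := log_le (Cop M) _ M (by positivity) (fun N => (cop_bounds hM N).2) X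
  have h7 := mul_le_mul_of_nonneg_left h6 hW0
  have h8 := h4 X
  nlinarith

open Classical in
theorem bad_loc (P K N : ℕ) (hP : 0 < P) (hK : K ≤ N) :
    (((Ioc K N).filter fun n => ∃ d, P < d ∧ d ^ 2 ∣ n).card : ℝ) ≤ (N - K) / P + N.sqrt := by
  have h1 : ((Ioc K N).filter fun n => ∃ d, P < d ∧ d ^ 2 ∣ n) ⊆
      (Ioc P N.sqrt).biUnion fun d => (Ioc K N).filter fun n => d ^ 2 ∣ n := by
    intro n hn
    obtain ⟨hn1, d, hd, hdn⟩ := mem_filter.1 hn
    have hn2 := mem_Ioc.1 hn1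
    refine mem_biUnion.2 ⟨d, mem_Ioc.2 ⟨hd, ?_⟩, mem_filter.2 ⟨hn1, hdn⟩⟩
    exact Nat.le_sqrt'.2 ((Nat.le_of_dvd (by omega) hdn).trans hn2.2)
  have h2 := (card_le_card h1).trans card_biUnion_le
  have h3 : (((Ioc K N).filter fun n => ∃ d, P < d ∧ d ^ 2 ∣ n).card : ℝ) ≤
      ∑ d ∈ Ioc P N.sqrt, (((Ioc K N).filter fun n => d ^ 2 ∣ n).card : ℝ) := by
    exact_mod_cast h2
  refine h3.trans ?_
  have hK' : (K : ℝ) ≤ N := by exact_mod_cast hK
  have h4 : ∀ d ∈ Ioc P N.sqrt, (((Ioc K N).filter fun n => d ^ 2 ∣ n).card : ℝ) ≤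
      (N - K) * (1 / d ^ 2) + 1 := by
    intro d hd
    have hd0 : 0 < d := by have := (mem_Ioc.1 hd).1; omega
    have e1 := cnt_Ioc {n | d ^ 2 ∣ n} hK
    have e2 : ∀ x, cnt {n | d ^ 2 ∣ n} x = x / d ^ 2 := fun x => by
      rw [← card_mult, cnt]
      congr
    rw [e2, e2] at e1
    have e3 : ((N / d ^ 2 : ℕ) : ℝ) = (K / d ^ 2 : ℕ) + ((Ioc K N).filter fun n => d ^ 2 ∣ n).card := by
      rw [e1]
      push_cast
      congr
    have e4 : ((N / d ^ 2 : ℕ) : ℝ) ≤ N / (d ^ 2 : ℕ) := Nat.cast_div_le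
    have e5 : (K : ℝ) < (d ^ 2 : ℕ) * ((K / d ^ 2 : ℕ) + 1) := by
      exact_mod_cast Nat.lt_mul_div_succ K (by positivity : 0 < d ^ 2)
    have hd' : (0 : ℝ) < (d ^ 2 : ℕ) := by positivity
    rw [mul_comm, ← div_lt_iff₀ hd'] at e5
    have e6 : ((N : ℝ) - K) * (1 / d ^ 2) = N / (d ^ 2 : ℕ) - K / (d ^ 2 : ℕ) := by
      push_cast
      ring
    linarith
  refine (sum_le_sum h4).trans ?_
  rw [sum_add_distrib, ← mul_sum, sum_const, Nat.card_Ioc, nsmul_eq_mul, mul_one]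
  have h5 := sum_sq P N.sqrt hP
  have h6 : (0 : ℝ) ≤ 1 / (max N.sqrt P : ℕ) := by positivity
  have h7 : ((N.sqrt - P : ℕ) : ℝ) ≤ N.sqrt := by exact_mod_cast Nat.sub_le _ _
  have h8 : ((N : ℝ) - K) * ∑ d ∈ Ioc P N.sqrt, (1 : ℝ) / d ^ 2 ≤ (N - K) * (1 / P) :=
    mul_le_mul_of_nonneg_left (by linarith) (by linarith)
  have h9 : ((N : ℝ) - K) * (1 / P) = (N - K) / P := by ring
  linarith

theorem sqrt_lim : Tendsto (fun N : ℕ => (N.sqrt : ℝ) / N) atTop (𝓝 0) := by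
  have h1 : Tendsto Nat.sqrt atTop atTop := by
    refine tendsto_atTop.2 fun b => ?_
    filter_upwards [eventually_ge_atTop (b ^ 2)] with N hN
    exact Nat.le_sqrt'.2 hN
  refine squeeze_zero' (Eventually.of_forall fun N => by positivity) ?_
    (tendsto_one_div_atTop_nhds_zero_nat.comp h1)
  filter_upwards [eventually_gt_atTop 0] with N hN
  have h2 : (0 : ℝ) < N := by exact_mod_cast hN
  have h3 : (0 : ℝ) < N.sqrt := by exact_mod_cast Nat.sqrt_pos.2 hN
  have h4 : (N.sqrt : ℝ) * N.sqrt ≤ N := by exact_mod_cast Nat.sqrt_le N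
  simp only [Function.comp]
  rw [div_le_div_iff₀ h2 h3]
  linarith

end Pool.Agent.H.MP_f8fa1d_co
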