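import Mathlib
import Pool.Agent.H.MP_f8fa1d_co.A
set_option autoImplicit false

namespace Pool.Agent.H.MP_f8fa1d_co
open Finset Filter Topology Pool.Agent.H.MP_9f86c8_nt

def NB (P n : ℕ) : Prop := ¬ ∃ d, P < d ∧ d ^ 2 ∣ n

def Sm (M : ℕ) (S : Finset ℕ) : Prop := ∀ s ∈ S, 0 < s ∧ ∃ k, s ∣ M ^ k

def Str (P : ℕ) (F : ℕ → Finset ℕ) : Set ℕ :=
  {n | 0 < n ∧ NB P n ∧ ∃ m, P.factorial.Coprime m ∧ ∃ s ∈ F m, n = m * s}

theorem un {M m m' s' : ℕ} (hm : M.Coprime m) (hs : ∃ k, s' ∣ M ^ k) (h : m ∣ m' * s') : m ∣ m' := by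
  obtain ⟨k, hk⟩ := hs
  exact ((hm.symm.pow_right k).coprime_dvd_right hk).dvd_of_dvd_mul_right h

theorem str_free {P : ℕ} {F : ℕ → Finset ℕ} (h1 : ∀ m, Sm P.factorial (F m))
    (h2 : ∀ m, Free (F m)) : Free (Str P F) := by
  rintro a ⟨a0, b1, m1, c1, s1, t1, e1⟩ b ⟨-, b2, m2, c2, s2, t2, e2⟩ c ⟨-, b3, m3, c3, s3, t3, e3⟩
    hab hbc he
  have d1 := share c1.symm he b1 b2 b3 (Or.inl ⟨s1, e1⟩)
  have d2 := share c2.symm he b1 b2 b3 (Or.inr (Or.inl ⟨s2, e2⟩))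
  have d3 := share c3.symm he b1 b2 b3 (Or.inr (Or.inr ⟨s3, e3⟩))
  have q2 : m2 = m1 := Nat.dvd_antisymm (un c2 (h1 _ _ t1).2 (e1 ▸ d2.1))
    (un c1 (h1 _ _ t2).2 (e2 ▸ d1.2.1))
  have q3 : m3 = m1 := Nat.dvd_antisymm (un c3 (h1 _ _ t1).2 (e1 ▸ d3.1))
    (un c1 (h1 _ _ t3).2 (e3 ▸ d1.2.2))
  subst q2 q3 e1 e2 e3
  have hm : 0 < m3 := Nat.pos_of_mul_pos_right a0
  refine h2 m3 s1 t1 s2 t2 s3 t3 (lt_of_mul_lt_mul_left hab (Nat.zero_le _))
    (lt_of_mul_lt_mul_left hbc (Nat.zero_le _)) ?_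
  have : m3 ^ 2 * s2 ^ 2 = m3 ^ 2 * (s1 * s3) := by
    calc m3 ^ 2 * s2 ^ 2 = (m3 * s2) ^ 2 := by ring
      _ = m3 * s1 * (m3 * s3) := he
      _ = _ := by ring
  exact Nat.eq_of_mul_eq_mul_left (by positivity) this

def Lin (H : Set ℕ) (δ C : ℝ) : Prop := ∀ N : ℕ, δ * N - C ≤ cnt H N ∧ (cnt H N : ℝ) ≤ δ * N + C

open Classical in
noncomputable def V (H : Set ℕ) (S : Finset ℕ) (K N : ℕ) : Finset ℕ :=
  S.biUnion fun s => ((Ioc (K / s) (N / s)).filter fun m => m ∈ H).image fun m => m * s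

theorem mem_V {H : Set ℕ} {S : Finset ℕ} {K N x : ℕ} (hS : ∀ s ∈ S, 0 < s) :
    x ∈ V H S K N ↔ x ∈ Ioc K N ∧ ∃ m ∈ H, ∃ s ∈ S, x = m * s := by
  simp only [V, mem_biUnion, mem_image, mem_filter, mem_Ioc]
  constructor
  · rintro ⟨s, hs, m, ⟨⟨h1, h2⟩, h3⟩, rfl⟩
    exact ⟨⟨(Nat.div_lt_iff_lt_mul (hS s hs)).1 h1, (Nat.le_div_iff_mul_le (hS s hs)).1 h2⟩,
      m, h3, s, hs, rfl⟩
  · rintro ⟨⟨h1, h2⟩, m, h3, s, hs, rfl⟩
    exact ⟨s, hs, m, ⟨⟨(Nat.div_lt_iff_lt_mul (hS s hs)).2 h1,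
      (Nat.le_div_iff_mul_le (hS s hs)).2 h2⟩, h3⟩, rfl⟩

theorem V_card {M : ℕ} {H : Set ℕ} (hH : H ⊆ Cop M) {δ C : ℝ} (hδ : 0 ≤ δ) (hL : Lin H δ C)
    {S : Finset ℕ} (hS : Sm M S) {K N : ℕ} (hK : K ≤ N) :
    δ * w S * (N - K) - S.card * (2 * C + δ) ≤ (V H S K N).card ∧
      ((V H S K N).card : ℝ) ≤ δ * w S * (N - K) + S.card * (2 * C + δ) := by
  classical
  have v1 : (V H S K N).card = ∑ s ∈ S, ((Ioc (K / s) (N / s)).filter fun m => m ∈ H).card := by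
    rw [V, card_biUnion]
    · exact sum_congr rfl fun s hs => card_image_of_injective _
        (mul_left_injective₀ (hS s hs).1.ne')
    · intro s hs s' hs' hne
      refine disjoint_left.2 fun x hx hx' => hne ?_
      obtain ⟨m, hm, rfl⟩ := mem_image.1 hx
      obtain ⟨m', hm', he⟩ := mem_image.1 hx'
      obtain ⟨hm1, hm2⟩ := mem_filter.1 hm
      have : m = m' := Nat.dvd_antisymm (un (hH hm2) (hS _ hs').2 (he ▸ Dvd.intro _ rfl))
        (un (hH (mem_filter.1 hm').2) (hS _ hs).2 (he ▸ Dvd.intro _ rfl))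
      subst this
      have hm0 : 0 < m := lt_of_le_of_lt (Nat.zero_le _) (mem_Ioc.1 hm1).1
      exact (Nat.eq_of_mul_eq_mul_left hm0 he).symm
  have v6 : ∀ s ∈ S, δ * (N - K) * (1 / s) - (2 * C + δ) ≤
      ((Ioc (K / s) (N / s)).filter fun m => m ∈ H).card ∧
      (((Ioc (K / s) (N / s)).filter fun m => m ∈ H).card : ℝ) ≤
        δ * (N - K) * (1 / s) + (2 * C + δ) := by
    intro s hs
    have hs0 := (hS s hs).1
    have hs' : (0 : ℝ) < s := by exact_mod_cast hs0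
    have e1 := cnt_Ioc H (Nat.div_le_div_right (c := s) hK)
    have e2 : (cnt H (N / s) : ℝ) = cnt H (K / s) +
        ((Ioc (K / s) (N / s)).filter fun m => m ∈ H).card := by exact_mod_cast e1
    have e3 := hL (N / s)
    have e4 := hL (K / s)
    have e5 : ((K / s : ℕ) : ℝ) ≤ K / s := Nat.cast_div_le
    have e5' : ((N / s : ℕ) : ℝ) ≤ N / s := Nat.cast_div_le
    have e6 : (N : ℝ) < s * ((N / s : ℕ) + 1) := by exact_mod_cast Nat.lt_mul_div_succ N hs0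
    have e6' : (K : ℝ) < s * ((K / s : ℕ) + 1) := by exact_mod_cast Nat.lt_mul_div_succ K hs0
    rw [mul_comm, ← div_lt_iff₀ hs'] at e6 e6'
    have e7 : δ * (N - K) * (1 / s) = δ * (N / s - K / s) := by ring
    rw [e7]
    constructor <;> nlinarith [e3.1, e3.2, e4.1, e4.2]
  have v7 := sum_le_sum fun s hs => (v6 s hs).1
  have v8 := sum_le_sum fun s hs => (v6 s hs).2
  rw [sum_sub_distrib, ← mul_sum, sum_const, nsmul_eq_mul, ← Nat.cast_sum, ← v1] at v7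
  rw [sum_add_distrib, ← mul_sum, sum_const, nsmul_eq_mul, ← Nat.cast_sum, ← v1] at v8
  have : δ * w S * (N - K) = δ * (N - K) * ∑ i ∈ S, (1 : ℝ) / i := by rw [w]; ring
  rw [this]
  exact ⟨v7, v8⟩

def LB (A : Set ℕ) (θ : ℝ) : Prop := ∃ C : ℕ, ∀ K N : ℕ, K ≤ N →
  θ * (N - K) - C - N.sqrt ≤ (cnt A N : ℝ) - cnt A K

theorem LB.mono {A B : Set ℕ} {θ θ' : ℝ} (h : LB A θ) (hAB : A ⊆ B) (hθ : θ' ≤ θ) : LB B θ' := by
  classical
  obtain ⟨C, hC⟩ := h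
  refine ⟨C, fun K N hK => ?_⟩
  have h1 := hC K N hK
  have h2 : (K : ℝ) ≤ N := by exact_mod_cast hK
  rw [cnt_Ioc A hK] at h1
  rw [cnt_Ioc B hK]
  have h3 : ((Ioc K N).filter fun n => n ∈ A).card ≤ ((Ioc K N).filter fun n => n ∈ B).card :=
    card_le_card (monotone_filter_right _ fun n _ hn => hAB hn)
  have h4 : (((Ioc K N).filter fun n => n ∈ A).card : ℝ) ≤
    ((Ioc K N).filter fun n => n ∈ B).card := by exact_mod_cast h3
  push_cast at h1 ⊢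
  nlinarith

theorem two_piece {P : ℕ} (hP : 0 < P) {H1 H2 : Set ℕ} (h1 : H1 ⊆ Cop P.factorial)
    (h2 : H2 ⊆ Cop P.factorial) (hd : Disjoint H1 H2) {δ1 δ2 C : ℝ} (hδ1 : 0 ≤ δ1) (hδ2 : 0 ≤ δ2)
    (l1 : Lin H1 δ1 C) (l2 : Lin H2 δ2 C) {S1 S2 : Finset ℕ} (s1 : Sm P.factorial S1)
    (s2 : Sm P.factorial S2) {A : Set ℕ} (hA : ∀ m s, 0 < m * s → NB P (m * s) →
      (m ∈ H1 ∧ s ∈ S1 ∨ m ∈ H2 ∧ s ∈ S2) → m * s ∈ A) :
    LB A (δ1 * w S1 + δ2 * w S2 - 1 / P) := by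
  classical
  obtain ⟨C', hC'⟩ := exists_nat_ge (S1.card * (2 * C + δ1) + S2.card * (2 * C + δ2))
  refine ⟨C', fun K N hK => ?_⟩
  have a1 := (V_card h1 hδ1 l1 s1 hK).1
  have a2 := (V_card h2 hδ2 l2 s2 hK).1
  have p1 : ∀ s ∈ S1, 0 < s := fun s hs => (s1 s hs).1
  have p2 : ∀ s ∈ S2, 0 < s := fun s hs => (s2 s hs).1
  have a3 : Disjoint (V H1 S1 K N) (V H2 S2 K N) := by
    refine disjoint_left.2 fun x hx hx' => ?_
    obtain ⟨-, m, hm, s, hs, rfl⟩ := (mem_V p1).1 hx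
    obtain ⟨-, m', hm', s', hs', he⟩ := (mem_V p2).1 hx'
    have : m = m' := Nat.dvd_antisymm (un (h1 hm) (s2 _ hs').2 (he ▸ Dvd.intro _ rfl))
      (un (h2 hm') (s1 _ hs).2 (he ▸ Dvd.intro _ rfl))
    exact Set.disjoint_left.1 hd hm (this ▸ hm')
  have a4 : V H1 S1 K N ∪ V H2 S2 K N ⊆ ((Ioc K N).filter fun n => n ∈ A) ∪
      ((Ioc K N).filter fun n => ∃ d, P < d ∧ d ^ 2 ∣ n) := by
    intro x hx
    have : x ∈ Ioc K N ∧ ∃ m s, (m ∈ H1 ∧ s ∈ S1 ∨ m ∈ H2 ∧ s ∈ S2) ∧ x = m * s := by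
      rcases mem_union.1 hx with hx | hx
      · obtain ⟨h0, m, hm, s, hs, he⟩ := (mem_V p1).1 hx
        exact ⟨h0, m, s, Or.inl ⟨hm, hs⟩, he⟩
      · obtain ⟨h0, m, hm, s, hs, he⟩ := (mem_V p2).1 hx
        exact ⟨h0, m, s, Or.inr ⟨hm, hs⟩, he⟩
    obtain ⟨h0, m, s, hms, rfl⟩ := this
    by_cases hb : ∃ d, P < d ∧ d ^ 2 ∣ m * s
    · exact mem_union_right _ (mem_filter.2 ⟨h0, hb⟩)
    · exact mem_union_left _ (mem_filter.2 ⟨h0, hA m s
        (lt_of_le_of_lt (Nat.zero_le _) (mem_Ioc.1 h0).1) hb hms⟩)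
  have a5 := (card_le_card a4).trans (card_union_le _ _)
  rw [card_union_of_disjoint a3] at a5
  have a6 := bad_loc P K N hP hK
  have a7 : ((V H1 S1 K N).card : ℝ) + (V H2 S2 K N).card ≤ ((Ioc K N).filter fun n => n ∈ A).card +
      (((Ioc K N).filter fun n => ∃ d, P < d ∧ d ^ 2 ∣ n).card : ℝ) := by exact_mod_cast a5
  rw [cnt_Ioc A hK]
  push_cast
  have : (δ1 * w S1 + δ2 * w S2 - 1 / P) * ((N : ℝ) - K) =
      δ1 * w S1 * (N - K) + δ2 * w S2 * (N - K) - (N - K) / P := by ring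
  linarith

theorem lin_per {H : Set ℕ} {T c : ℕ} (hT : 0 < T) (hp : Function.Periodic (fun m => m ∈ H) T)
    (hc : cnt H T = c) : Lin H (c / T) T := by
  classical
  have hT' : (0 : ℝ) < T := by exact_mod_cast hT
  have e : ∀ j, cnt H (T * j) = j * c := by
    intro j
    induction j with
    | zero => simp [cnt]
    | succ j ih =>
      rw [cnt_Ioc H (show T * j ≤ T * (j + 1) by nlinarith), ih]
      have h1 := Nat.filter_Ico_card_eq_of_periodic (T * j + 1) T _ hp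
      have h2 := Nat.filter_Ico_card_eq_of_periodic 1 T _ hp
      have h3 : Ioc (T * j) (T * (j + 1)) = Ico (T * j + 1) (T * j + 1 + T) := by
        ext n
        simp only [mem_Ioc, mem_Ico, mul_add, mul_one]
        omega
      have h4 : Icc 1 T = Ico 1 (1 + T) := by
        ext n
        simp only [mem_Icc, mem_Ico]
        omega
      rw [cnt, h4, h2] at hc
      rw [h3, h1, hc]
      ring
  have hcT : c ≤ T := by
    rw [← hc, cnt]
    exact (card_filter_le _ _).trans (by simp)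
  intro N
  have h1 : T * (N / T) ≤ N := Nat.mul_div_le N T
  have h2 : N < T * (N / T + 1) := Nat.lt_mul_div_succ N hT
  have h3 := cnt_Ioc H h1
  have h4 := cnt_Ioc H h2.le
  rw [e] at h3 h4
  have h5 : ((N / T : ℕ) : ℝ) * c ≤ cnt H N := by exact_mod_cast (by omega)
  have h6 : (cnt H N : ℝ) ≤ ((N / T : ℕ) + 1) * c := by exact_mod_cast (by omega)
  have h7 : (T : ℝ) * (N / T : ℕ) ≤ N := by exact_mod_cast h1
  have h8 : (N : ℝ) ≤ T * ((N / T : ℕ) + 1) := by exact_mod_cast h2.le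
  have h9 : (c : ℝ) ≤ T := by exact_mod_cast hcT
  have h10 : (0 : ℝ) ≤ c := by positivity
  generalize ((N / T : ℕ) : ℝ) = q at *
  have h11 : (c : ℝ) / T * N ≤ c * (q + 1) := by
    rw [div_mul_eq_mul_div, div_le_iff₀ hT']
    nlinarith
  have h12 : c * q ≤ (c : ℝ) / T * N := by
    rw [div_mul_eq_mul_div, le_div_iff₀ hT']
    nlinarith
  constructor <;> nlinarith

def Hs (M L a b : ℕ) : Set ℕ := {m | M.Coprime m ∧ a ≤ (m + (M * L - 1)) / M % L ∧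
  (m + (M * L - 1)) / M % L < b}

theorem lin_Hs {M L a b : ℕ} (hM : 0 < M) (hab : a ≤ b) (hb : b ≤ L) (hL : 0 < L) :
    Lin (Hs M L a b) (((b : ℝ) - a) / L * (M.totient / M)) (M * L : ℕ) := by
  classical
  have hML : 0 < M * L := Nat.mul_pos hM hL
  have := lin_per (H := Hs M L a b) (c := (b - a) * M.totient) hML (by
    intro m
    have e1 : (m + M * L + (M * L - 1)) / M % L = (m + (M * L - 1)) / M % L := by
      rw [show m + M * L + (M * L - 1) = m + (M * L - 1) + M * L by ring,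
        Nat.add_mul_div_left _ _ hM, Nat.add_mod_right]
    simp only [Hs, Set.mem_ofPred_eq, e1, Nat.coprime_add_mul_left_right]) (by
    rw [← cop_count M (M * a + 1) (b - a), cnt]
    congr 1
    ext n
    simp only [mem_filter, mem_Icc, mem_Ico, Hs, Set.mem_ofPred_eq]
    have e0 : M * (b - a) = M * b - M * a := Nat.mul_sub _ _ _
    have e1 : M * a ≤ M * b := Nat.mul_le_mul_left _ hab
    have e2 : M * b ≤ M * L := Nat.mul_le_mul_left _ hb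
    have e3 : 1 ≤ n → n ≤ M * L → (n + (M * L - 1)) / M % L = (n - 1) / M := by
      intro h1 h2
      rw [show n + (M * L - 1) = n - 1 + M * L by omega, Nat.add_mul_div_left _ _ hM,
        Nat.add_mod_right, Nat.mod_eq_of_lt]
      rw [Nat.div_lt_iff_lt_mul hM, mul_comm]
      omega
    constructor
    · rintro ⟨⟨h1, h2⟩, h3, h4, h5⟩
      rw [e3 h1 h2] at h4 h5
      rw [Nat.le_div_iff_mul_le hM, mul_comm] at h4
      rw [Nat.div_lt_iff_lt_mul hM, mul_comm] at h5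
      exact ⟨⟨by omega, by omega⟩, h3⟩
    · rintro ⟨⟨h1, h2⟩, h3⟩
      rw [e3 (by omega) (by omega), Nat.le_div_iff_mul_le hM, Nat.div_lt_iff_lt_mul hM, mul_comm a,
        mul_comm b]
      exact ⟨⟨by omega, by omega⟩, h3, by omega, by omega⟩)
  convert this using 1
  push_cast [Nat.cast_sub hab]
  have : (0 : ℝ) < M := by exact_mod_cast hM
  have : (0 : ℝ) < L := by exact_mod_cast hL
  field_simp

end Pool.Agent.H.MP_f8fa1d_co
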