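import Mathlib
import Pool.Agent.H.MP_f8fa1d_co.B
set_option autoImplicit false

namespace Pool.Agent.H.MP_f8fa1d_co
open Finset Filter Topology Pool.Agent.H.MP_9f86c8_nt

theorem long {a b c : ℕ} (ha : 0 < a) (h : b ^ 2 = a * c) : ∃ y, y ^ 2 ∣ c ∧ c ≤ a * y ^ 2 := by
  obtain ⟨g, x, y, hg, hxy, rfl, rfl⟩ := Nat.exists_coprime' (Nat.gcd_pos_of_pos_left b ha)
  have hx : 0 < x := Nat.pos_of_mul_pos_right ha
  have e : g * y ^ 2 = x * c := Nat.eq_of_mul_eq_mul_left hg (by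
    calc g * (g * y ^ 2) = (y * g) ^ 2 := by ring
      _ = x * g * c := h
      _ = _ := by ring)
  refine ⟨y, (Nat.Coprime.pow_left 2 hxy.symm).dvd_of_dvd_mul_left ⟨g, by rw [← e]; ring⟩, ?_⟩
  calc c = 1 * 1 * c := by ring
    _ ≤ x * x * c := Nat.mul_le_mul_right _ (Nat.mul_le_mul hx hx)
    _ = x * g * y ^ 2 := by rw [mul_assoc, ← e]; ring

theorem cnt_diff {A B : Set ℕ} {K N : ℕ} (hK : K ≤ N) (h : ∀ n, K < n → n ≤ N → n ∈ A → n ∈ B) :
    (cnt A N : ℝ) - cnt A K ≤ (cnt B N : ℝ) - cnt B K := by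
  classical
  rw [cnt_Ioc A hK, cnt_Ioc B hK]
  have h3 : ((Ioc K N).filter fun n => n ∈ A).card ≤ ((Ioc K N).filter fun n => n ∈ B).card :=
    card_le_card (monotone_filter_right _ fun n h1 hn => h n (mem_Ioc.1 h1).1 (mem_Ioc.1 h1).2 hn)
  have h4 : (((Ioc K N).filter fun n => n ∈ A).card : ℝ) ≤
    ((Ioc K N).filter fun n => n ∈ B).card := by exact_mod_cast h3
  push_cast
  linarith

theorem glue2 (B : ℕ → Set ℕ) (Q : ℕ → ℕ) (θ : ℕ → ℝ) {s : ℝ} (hs : 0 ≤ s)
    (hF : ∀ t, Free (B t)) (hN : ∀ t, ∀ n ∈ B t, NB (Q t) n)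
    (hL : ∀ t, LB (B t ∩ B (t + 1)) (θ t)) (hθ : ∀ ε, 0 < ε → ∀ᶠ t in atTop, s - ε ≤ θ t) :
    ∃ A : Set ℕ, (∀ n ∈ A, 0 < n) ∧ Free A ∧ ∀ ε : ℝ, 0 < ε → ∀ᶠ N : ℕ in atTop, ∀ K : ℕ, K ≤ N →
      s * (N - K) - ε * N ≤ (cnt A N : ℝ) - cnt A K := by
  classical
  choose C hC using hL
  obtain ⟨X, hX0, hX⟩ : ∃ X : ℕ → ℕ, X 0 = 0 ∧ ∀ t,
      X (t + 1) = (t + 1) * (X t + C t + C (t + 1) + 1) * (Q (t + 1) + 1) ^ 2 :=
    ⟨fun t => Nat.rec 0 (fun t x => (t + 1) * (x + C t + C (t + 1) + 1) * (Q (t + 1) + 1) ^ 2) t,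
      rfl, fun t => rfl⟩
  have hX1 : ∀ t, (t + 1) * (X t + C t + C (t + 1) + 1) ≤ X (t + 1) := fun t => by
    rw [hX]
    exact Nat.le_mul_of_pos_right _ (by positivity)
  have hX2 : ∀ t, X t * Q (t + 1) ^ 2 ≤ X (t + 1) := fun t => by
    rw [hX]
    refine Nat.mul_le_mul ?_ (Nat.pow_le_pow_left (by omega) 2)
    nlinarith
  have hm : StrictMono X := strictMono_nat_of_lt_succ fun t => by
    have := hX1 t
    nlinarith
  set A : Set ℕ := {n | ∃ t, X t < n ∧ n ≤ X (t + 1) ∧ n ∈ B t ∩ B (t + 1)} with hA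
  have piece : ∀ t K N, X t ≤ K → K ≤ N → N ≤ X (t + 1) →
      θ t * (N - K) - C t - N.sqrt ≤ (cnt A N : ℝ) - cnt A K := by
    intro t K N h1 h2 h3
    exact (hC t K N h2).trans (cnt_diff h2 fun n n1 n2 hb => ⟨t, by omega, by omega, hb⟩)
  refine ⟨A, ?_, ?_, fun ε hε => ?_⟩
  · rintro n ⟨t, h, -⟩
    omega
  · rintro a ⟨i, a1, a2, a3⟩ b ⟨j, b1, b2, b3⟩ c ⟨k, c1, c2, c3⟩ hab hbc h
    have hij : i < j + 1 := hm.lt_iff_lt.1 (by omega)
    have hjk : j < k + 1 := hm.lt_iff_lt.1 (by omega)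
    by_cases hk : k ≤ i + 1
    · have key : ∀ n l, i ≤ l → l ≤ i + 1 → n ∈ B l ∩ B (l + 1) → n ∈ B (i + 1) := by
        intro n l h1 h2 h3
        rcases Nat.eq_or_lt_of_le h1 with rfl | h4
        · exact h3.2
        · rw [show i + 1 = l by omega]
          exact h3.1
      exact hF (i + 1) a a3.2 b (key b j (by omega) (by omega) b3) c
        (key c k (by omega) hk c3) hab hbc h
    · obtain ⟨y, y1, y2⟩ := long (by omega) h
      obtain ⟨l, rfl⟩ : ∃ l, k = l + 1 := ⟨k - 1, by omega⟩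
      refine hN _ c c3.1 ⟨y, ?_, y1⟩
      have h1 : a ≤ X l := a2.trans (hm.monotone (by omega))
      have h2 := hX2 l
      by_contra h3
      have h4 : y ^ 2 ≤ Q (l + 1) ^ 2 := Nat.pow_le_pow_left (by omega) 2
      have := Nat.mul_le_mul h1 h4
      omega
  · obtain ⟨T0, hT0⟩ := eventually_atTop.1 (hθ (ε / 4) (by linarith))
    obtain ⟨T1, hT1⟩ := exists_nat_ge (4 * (s + 1) / ε)
    filter_upwards [eventually_gt_atTop (X (T0 + T1 + 1)),
      sqrt_lim.eventually (gt_mem_nhds (show (0 : ℝ) < ε / 8 by linarith))] with N hN hq K hK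
    have hN' : (0 : ℝ) < N := by exact_mod_cast (by omega : 0 < N)
    rw [div_lt_iff₀ hN'] at hq
    obtain ⟨T, t1, t2⟩ : ∃ T, X T < N ∧ N ≤ X (T + 1) := by
      have hex : ∃ T, N ≤ X T := ⟨N, hm.id_le N⟩
      have h1 := Nat.find_spec hex
      have h2 : Nat.find hex ≠ 0 := fun h => by rw [h] at h1; omega
      obtain ⟨T, hT⟩ := Nat.exists_eq_succ_of_ne_zero h2
      have h3 := Nat.find_min hex (m := T) (by omega)
      rw [hT] at h1
      exact ⟨T, by omega, h1⟩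
    have hT : T0 + T1 + 1 < T + 1 := hm.lt_iff_lt.1 (by omega)
    obtain ⟨u, rfl⟩ : ∃ u, T = u + 1 := ⟨T - 1, by omega⟩
    have θ1 := hT0 u (by omega)
    have θ2 := hT0 (u + 1) (by omega)
    have b1 : ((u : ℝ) + 1) * (X u + C u + C (u + 1) + 1) ≤ N := by
      exact_mod_cast (hX1 u).trans t1.le
    have b2 : (T1 : ℝ) ≤ u + 1 := by exact_mod_cast (by omega)
    rw [div_le_iff₀ hε] at hT1
    have x0 : (0 : ℝ) ≤ X u := by positivity
    have c0 : (0 : ℝ) ≤ C u := by positivity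
    have c1 : (0 : ℝ) ≤ C (u + 1) := by positivity
    have b3 : (s + 1) * (X u + C u + C (u + 1)) ≤ ε / 4 * N := by
      have h1 : 4 * (s + 1) ≤ (u + 1) * ε := by nlinarith
      have h2 := mul_le_mul_of_nonneg_right h1
        (show (0 : ℝ) ≤ X u + C u + C (u + 1) + 1 by positivity)
      nlinarith
    have hK' : (K : ℝ) ≤ N := by exact_mod_cast hK
    have k0 : (0 : ℝ) ≤ K := by positivity
    have q0 : (0 : ℝ) ≤ N.sqrt := by positivity
    have sx : 0 ≤ s * X u := by positivity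
    have sc : 0 ≤ s * C u := by positivity
    have sc' : 0 ≤ s * C (u + 1) := by positivity
    by_cases h1 : X (u + 1) ≤ K
    · have p := piece (u + 1) K N h1 hK t2
      have := mul_le_mul_of_nonneg_right θ2 (show (0 : ℝ) ≤ N - K by linarith)
      nlinarith
    · have hxx := (hm (show u < u + 1 by omega)).le
      have p1 := piece (u + 1) (X (u + 1)) N le_rfl t1.le t2
      have p2 := piece u (max K (X u)) (X (u + 1)) (le_max_right _ _) (max_le (by omega) hxx) le_rfl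
      have p3 : (cnt A K : ℝ) ≤ cnt A (max K (X u)) := by
        rw [cnt_Ioc A (le_max_left K (X u))]
        push_cast
        have : (0 : ℝ) ≤ ((Ioc K (max K (X u))).filter fun n => n ∈ A).card := by positivity
        linarith
      have p4 : ((X (u + 1)).sqrt : ℝ) ≤ N.sqrt := by exact_mod_cast Nat.sqrt_le_sqrt t1.le
      have p5 : ((max K (X u) : ℕ) : ℝ) ≤ K + X u := by exact_mod_cast (by omega)
      have p6 : ((max K (X u) : ℕ) : ℝ) ≤ X (u + 1) := by exact_mod_cast (by omega)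
      have p7 : (X (u + 1) : ℝ) ≤ N := by exact_mod_cast t1.le
      have p8 : (0 : ℝ) ≤ (max K (X u) : ℕ) := by positivity
      generalize ((max K (X u) : ℕ) : ℝ) = k at *
      have r1 := mul_le_mul_of_nonneg_right θ2 (show (0 : ℝ) ≤ N - X (u + 1) by linarith)
      have r2 := mul_le_mul_of_nonneg_right θ1 (show (0 : ℝ) ≤ X (u + 1) - k by linarith)
      have r3 := mul_le_mul_of_nonneg_left p5 hs
      nlinarith

theorem refine_level {P P' : ℕ} (hP : 0 < P) (hPP : P ≤ P') {S : Finset ℕ} (s1 : Sm P.factorial S)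
    (s2 : Free S) : ∃ S' : Finset ℕ, Sm P'.factorial S' ∧ Free S' ∧
      Str P (fun _ => S) ⊆ Str P' (fun _ => S') ∧
      P.factorial.totient / P.factorial * w S - 1 / P ≤
        P'.factorial.totient / P'.factorial * w S' := by
  classical
  set S' := (Icc 1 (P' ^ 2 * P'.factorial)).filter
    fun s => (∃ k, s ∣ P'.factorial ^ k) ∧ s ∈ Str P fun _ => S with hS'
  have a1 : Sm P'.factorial S' := fun s hs =>
    ⟨(mem_Icc.1 (mem_filter.1 hs).1).1, (mem_filter.1 hs).2.1⟩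
  have a2 : Str P (fun _ => S) ⊆ Str P' (fun _ => S') := by
    rintro n ⟨n0, nb, m, c, s, hs, e⟩
    have nb' : NB P' n := fun ⟨d, h1, h2⟩ => nb ⟨d, by omega, h2⟩
    obtain ⟨m', s', k, e', c', hk⟩ := decomp P'.factorial n n0
    refine ⟨n0, nb', m', c', s', mem_filter.2 ⟨?_, ⟨k, hk⟩, ?_⟩, e'⟩
    · have s0 : 0 < s' := Nat.pos_of_mul_pos_left (e' ▸ n0)
      obtain ⟨a, b, hab, ha⟩ := Nat.sq_mul_squarefree s'
      have hb : b ≤ P' := by
        by_contra hb
        exact nb' ⟨b, by omega, e' ▸ hab ▸ (Dvd.intro _ rfl).mul_left _⟩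
      have k0 : a ∣ P'.factorial ^ (k + 1) :=
        (hab ▸ Dvd.intro_left _ rfl : a ∣ s').trans (hk.trans (pow_dvd_pow _ (by omega)))
      have ha' := Nat.le_of_dvd P'.factorial_pos ((ha.dvd_pow_iff_dvd (by omega)).1 k0)
      exact mem_Icc.2 ⟨s0, hab ▸ Nat.mul_le_mul (Nat.pow_le_pow_left hb 2) ha'⟩
    · have s0 : 0 < s' := Nat.pos_of_mul_pos_left (e' ▸ n0)
      have c2 : P.factorial.Coprime m' := c'.coprime_dvd_left (Nat.factorial_dvd_factorial hPP)
      obtain ⟨u, hu⟩ : m' ∣ m := un c2 (s1 s hs).2 (e ▸ e' ▸ Dvd.intro _ rfl)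
      have m0 : 0 < m' := Nat.pos_of_mul_pos_right (e' ▸ n0)
      refine ⟨s0, fun ⟨d, h1, h2⟩ => nb ⟨d, h1, e' ▸ h2.mul_left _⟩, u,
        c.coprime_dvd_right (hu ▸ Dvd.intro_left _ rfl), s, hs, ?_⟩
      exact Nat.eq_of_mul_eq_mul_left m0 (by rw [← e', e, hu]; ring)
  refine ⟨S', a1, fun a ha b hb c hc => str_free (fun _ => s1) (fun _ => s2)
    a (mem_filter.1 (mem_coe.1 ha)).2.2 b (mem_filter.1 (mem_coe.1 hb)).2.2
    c (mem_filter.1 (mem_coe.1 hc)).2.2, a2, ?_⟩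
  obtain ⟨C, hC⟩ := two_piece hP (H1 := Cop P.factorial) (H2 := ∅) subset_rfl (Set.empty_subset _)
    (Set.disjoint_empty _) (δ2 := 0) (by positivity) le_rfl (cop_bounds P.factorial_pos)
    (fun N => by simp [cnt]) s1 s1 (A := Str P fun _ => S) (by
      rintro m s h0 hb (h | h)
      · exact ⟨h0, hb, m, h.1, s, h.2, rfl⟩
      · exact h.1.elim)
  have hV := fun N => (V_card (H := Cop P'.factorial) subset_rfl (by positivity)
    (cop_bounds P'.factorial_pos) a1 (Nat.zero_le N)).2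
  generalize (S'.card : ℝ) * (2 * P'.factorial + P'.factorial.totient / P'.factorial) = D at hV
  have l1 := ((tendsto_const_div_atTop_nhds_zero_nat (C + D : ℝ)).add sqrt_lim).const_add
    (P'.factorial.totient / P'.factorial * w S')
  rw [add_zero, add_zero] at l1
  refine ge_of_tendsto l1 ?_
  filter_upwards [eventually_gt_atTop 0] with N hN
  have hN' : (0 : ℝ) < N := by exact_mod_cast hN
  have h1 := hC 0 N (Nat.zero_le N)
  have h2 := hV N
  have h3 : cnt (Str P fun _ => S) N ≤ (V (Cop P'.factorial) S' 0 N).card := by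
    refine card_le_card fun n hn => ?_
    obtain ⟨n1, n2⟩ := mem_filter.1 hn
    obtain ⟨n0, -, m, c, s, hs, e⟩ := a2 n2
    exact (mem_V fun s hs => (a1 s hs).1).2 ⟨mem_Ioc.2 ⟨n0, (mem_Icc.1 n1).2⟩, m, c, s, hs, e⟩
  have h4 : (cnt (Str P fun _ => S) N : ℝ) ≤ (V (Cop P'.factorial) S' 0 N).card := by
    exact_mod_cast h3
  have h5 : cnt (Str P fun _ => S) 0 = 0 := by simp [cnt]
  rw [h5] at h1
  rw [← add_div, ← sub_le_iff_le_add', le_div_iff₀ hN']
  simp only [Nat.cast_zero, sub_zero, zero_mul, add_zero] at h1 h2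
  linarith

theorem attain {s : ℝ} (hs : 0 ≤ s) (hs1 : s ≤ 1) (h : ∀ ε, 0 < ε → ∃ (A : Set ℕ) (d : ℝ), Free A ∧
    Tendsto (fun N : ℕ => (cnt A N : ℝ) / N) atTop (𝓝 d) ∧ s - ε < d) :
    ∃ A : Set ℕ, (∀ n ∈ A, 0 < n) ∧ Free A ∧
      Tendsto (fun N : ℕ => (cnt A N : ℝ) / N) atTop (𝓝 s) := by
  classical
  have lev : ∀ j : ℕ, ∃ S : Finset ℕ, Sm (j + 1).factorial S ∧ Free S ∧
      s - 1 / (j + 1 : ℕ) ≤ (j + 1).factorial.totient / (j + 1).factorial * w S := by
    intro j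
    obtain ⟨A, d, a1, a2, a3⟩ := h (1 / (j + 1 : ℕ)) (by positivity)
    by_contra hc
    have hδ : (0 : ℝ) < (j + 1).factorial.totient / (j + 1).factorial :=
      div_pos (by exact_mod_cast Nat.totient_pos.2 (j + 1).factorial_pos)
        (by exact_mod_cast (j + 1).factorial_pos)
    have := upper (j + 1).factorial_pos a1 a2
      (W := (s - 1 / (j + 1 : ℕ)) / ((j + 1).factorial.totient / (j + 1).factorial)) (by
        intro S s1 s2
        rw [le_div_iff₀ hδ, mul_comm]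
        by_contra h3
        exact hc ⟨S, s1, s2, (not_le.1 h3).le⟩)
    rw [mul_div_cancel₀ _ hδ.ne'] at this
    linarith
  choose S s1 s2 s3 using lev
  choose R r1 r2 r3 r4 using fun j : ℕ =>
    refine_level (P := j + 1) (P' := j + 1 + 1) (by omega) (by omega) (s1 j) (s2 j)
  let hh : ℕ → ℕ → ℕ := fun j m => (m + ((j + 1 + 1).factorial * (2 * j + 1) - 1)) /
    (j + 1 + 1).factorial % (2 * j + 1)
  let mix : ℕ → ℕ → Set ℕ := fun j i =>
    Str (j + 1 + 1) fun m => if hh j m < i then S (j + 1) else R j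
  have m1 : ∀ j i, Free (mix j i) := fun j i => str_free
    (fun m => by split_ifs; exacts [s1 _, r1 _]) (fun m => by split_ifs; exacts [s2 _, r2 _])
  have m2 : ∀ j, mix j (2 * j + 1) ⊆ mix (j + 1) 0 := by
    intro j n hn
    have e1 : mix j (2 * j + 1) = Str (j + 1 + 1) fun _ => S (j + 1) := by
      simp only [mix, hh, if_pos (Nat.mod_lt _ (Nat.succ_pos _))]
    have e2 : mix (j + 1) 0 = Str (j + 1 + 1 + 1) fun _ => R (j + 1) := by
      simp only [mix, Nat.not_lt_zero, if_false]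
    rw [e2]
    exact r3 (j + 1) (e1 ▸ hn)
  have m3 : ∀ j i, i ≤ 2 * j → LB (mix j i ∩ mix j (i + 1)) (s - 4 / (j + 1 : ℕ)) := by
    intro j i hi
    have hM := (j + 1 + 1).factorial_pos
    have hi' : (i : ℝ) ≤ 2 * j := by exact_mod_cast hi
    have hj : (0 : ℝ) ≤ j := by positivity
    have hi0 : (0 : ℝ) ≤ i := by positivity
    refine (two_piece (P := j + 1 + 1) (by omega) (fun m hm => hm.1) (fun m hm => hm.1) ?_ ?_ ?_
      (lin_Hs hM (Nat.zero_le i) (L := 2 * j + 1) (by omega) (by omega))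
      (lin_Hs hM (a := i + 1) (b := 2 * j + 1) (by omega) le_rfl (by omega)) (s1 (j + 1)) (r1 j)
      ?_).mono subset_rfl ?_
    · refine Set.disjoint_left.2 fun m h1 h2 => ?_
      have := h1.2.2
      have := h2.2.1
      omega
    · simp only [Nat.cast_zero, sub_zero]
      positivity
    · refine mul_nonneg (div_nonneg ?_ (by positivity)) (by positivity)
      push_cast
      linarith
    · rintro m x h0 hb (⟨h1, h2⟩ | ⟨h1, h2⟩)
      · have : hh j m < i := h1.2.2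
        exact ⟨⟨h0, hb, m, h1.1, x, by beta_reduce; rw [if_pos this]; exact h2, rfl⟩,
          ⟨h0, hb, m, h1.1, x, by beta_reduce; rw [if_pos (by omega)]; exact h2, rfl⟩⟩
      · have : i + 1 ≤ hh j m := h1.2.1
        exact ⟨⟨h0, hb, m, h1.1, x, by beta_reduce; rw [if_neg (by omega)]; exact h2, rfl⟩,
          ⟨h0, hb, m, h1.1, x, by beta_reduce; rw [if_neg (by omega)]; exact h2, rfl⟩⟩
    · have t1 := s3 (j + 1)
      have t2 := s3 j
      have t3 := r4 j
      rw [mul_assoc, mul_assoc]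
      have w1 : 0 ≤ ((j + 1 + 1).factorial.totient : ℝ) / (j + 1 + 1).factorial * w (S (j + 1)) := by
        unfold w; positivity
      have w2 : 0 ≤ ((j + 1 + 1).factorial.totient : ℝ) / (j + 1 + 1).factorial * w (R j) := by
        unfold w; positivity
      generalize ((j + 1 + 1).factorial.totient : ℝ) / (j + 1 + 1).factorial * w (S (j + 1)) = a at *
      generalize ((j + 1 + 1).factorial.totient : ℝ) / (j + 1 + 1).factorial * w (R j) = b at *
      push_cast at *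
      have u1 : (1 : ℝ) / (j + 1 + 1) ≤ 1 / (j + 1) := by gcongr; linarith
      have u2 : (1 : ℝ) / (2 * j + 1) ≤ 1 / (j + 1) := by gcongr; linarith
      have u3 : (4 : ℝ) / (j + 1) = 4 * (1 / (j + 1)) := by ring
      have u4 : (0 : ℝ) < 1 / (2 * j + 1) := by positivity
      have u5 : ((i : ℝ) - 0) / (2 * j + 1) = i * (1 / (2 * j + 1)) := by ring
      have u6 : (2 * (j : ℝ) + 1 - (i + 1)) / (2 * j + 1) =
          1 - 1 / (2 * j + 1) - i * (1 / (2 * j + 1)) := by field_simp; ring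
      have u7 : 0 ≤ (2 * (j : ℝ) + 1 - (i + 1)) / (2 * j + 1) :=
        div_nonneg (by linarith) (by positivity)
      have u8 : (0 : ℝ) < 1 / (j + 1) := by positivity
      rw [u6] at u7
      rw [u3, u5, u6]
      have u9 : 0 ≤ i * (1 / (2 * (j : ℝ) + 1)) := by positivity
      generalize (i : ℝ) * (1 / (2 * j + 1)) = p at *
      generalize (1 : ℝ) / (2 * j + 1) = q at *
      generalize (1 : ℝ) / (j + 1 + 1) = e' at *
      generalize (1 : ℝ) / (j + 1) = e at *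
      have v1 := mul_le_mul_of_nonneg_left (show s - 2 * e ≤ a by linarith) u9
      have v2 := mul_le_mul_of_nonneg_left (show s - 2 * e ≤ b by linarith) u7
      nlinarith
  obtain ⟨A, a1, a2, a3⟩ := glue2 (fun t => mix t.sqrt (t - t.sqrt ^ 2)) (fun t => t.sqrt + 1 + 1)
    (fun t => s - 4 / (t.sqrt + 1 : ℕ)) hs (fun t => m1 _ _) (fun t n hn => hn.2.1) (by
      intro t
      have h1 := Nat.sqrt_le' t
      have h2 := Nat.lt_succ_sqrt' t
      have h3 : (t.sqrt + 1) ^ 2 = t.sqrt ^ 2 + 2 * t.sqrt + 1 := by ring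
      rw [Nat.succ_eq_add_one] at h2
      refine (m3 t.sqrt (t - t.sqrt ^ 2) (by omega)).mono (Set.inter_subset_inter_right _ ?_) le_rfl
      by_cases h4 : t + 1 < (t.sqrt + 1) ^ 2
      · have h5 : (t + 1).sqrt = t.sqrt := (Nat.eq_sqrt'.2 ⟨by omega, h4⟩).symm
        simp only [h5]
        rw [show t + 1 - t.sqrt ^ 2 = t - t.sqrt ^ 2 + 1 by omega]
      · have h5 : (t + 1).sqrt = t.sqrt + 1 := by
          rw [show t + 1 = (t.sqrt + 1) ^ 2 by omega, Nat.sqrt_eq']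
        simp only [h5]
        rw [show t + 1 - (t.sqrt + 1) ^ 2 = 0 by omega,
          show t - t.sqrt ^ 2 + 1 = 2 * t.sqrt + 1 by omega]
        exact m2 _) (by
      intro ε hε
      obtain ⟨T, hT⟩ := exists_nat_ge (4 / ε)
      filter_upwards [eventually_ge_atTop (T ^ 2)] with t ht
      have h1 : (T : ℝ) ≤ t.sqrt := by exact_mod_cast Nat.le_sqrt'.2 ht
      have h2 : (4 : ℝ) / (t.sqrt + 1 : ℕ) ≤ ε := by
        rw [div_le_iff₀ hε] at hT
        rw [div_le_iff₀ (by positivity)]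
        push_cast
        nlinarith
      linarith)
  obtain ⟨B, b1, b2⟩ := thin A s hs a3
  exact ⟨B, fun n hn => a1 n (b1 hn), fun a ha b hb c hc => a2 a (b1 ha) b (b1 hb) c (b1 hc), b2⟩

end Pool.Agent.H.MP_f8fa1d_co
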